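import Mathlib
import Pool.Agent.Lib_helper28.Heat.Defs

set_option autoImplicit false

open MeasureTheory ProbabilityTheory Set Polynomial

namespace Pool.Agent.Lib28.Heat

namespace PM

/-- The one dimensional Gaussian measure. -/
noncomputable abbrev ga : Measure ℝ := gaussianReal 0 1

/-- The product measure. -/
noncomputable abbrev gn (n : ℕ) : Measure (Fin n → ℝ) := Measure.pi (fun _ : Fin n => ga)

lemma prod_ite_one {n : ℕ} (i : Fin n) (a b : ℝ) :
    ∏ j : Fin n, (if j = i then a else b) = a * b ^ (n - 1) := by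
  rw [← Finset.mul_prod_erase Finset.univ _ (Finset.mem_univ i), if_pos rfl]
  congr 1
  rw [Finset.prod_congr rfl (g := fun _ => b)]
  · rw [Finset.prod_const, Finset.card_erase_of_mem (Finset.mem_univ i), Finset.card_univ,
      Fintype.card_fin]
  · intro j hj
    rw [if_neg (Finset.ne_of_mem_erase hj)]

end PM

open PM

/-- H4 (pairing with the event that no coordinate is in `I`). -/
theorem pair_none (n : ℕ) (I : Set ℝ) (hI : MeasurableSet I) (h : ℝ → ℝ)
    (hh : Integrable h (gaussianReal 0 1)) (h0 : ∫ y, h y ∂(gaussianReal 0 1) = 0) :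
    ∫ x, (∑ i : Fin n, h (x i)) * ∏ j : Fin n, (Iᶜ).indicator (fun _ => (1 : ℝ)) (x j)
        ∂(Measure.pi (fun _ : Fin n => gaussianReal 0 1))
      = - (n * (∫ y in I, h y ∂(gaussianReal 0 1)) * (1 - (gaussianReal 0 1).real I) ^ (n - 1)) := by
  have hIc : MeasurableSet Iᶜ := hI.compl
  -- the factors
  set F : Fin n → Fin n → ℝ → ℝ := fun i j y =>
    if j = i then (Iᶜ).indicator h y else (Iᶜ).indicator (fun _ => (1 : ℝ)) y with hF
  have hFint : ∀ i j, Integrable (F i j) (gaussianReal 0 1) := by
    intro i j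
    simp only [hF]
    by_cases hij : j = i
    · simp only [hij, if_true]
      exact hh.indicator hIc
    · simp only [hij, if_false]
      exact (integrable_const (1 : ℝ)).indicator hIc
  have hpt : ∀ x : Fin n → ℝ,
      (∑ i : Fin n, h (x i)) * ∏ j : Fin n, (Iᶜ).indicator (fun _ => (1 : ℝ)) (x j) =
        ∑ i : Fin n, ∏ j : Fin n, F i j (x j) := by
    intro x
    rw [Finset.sum_mul]
    refine Finset.sum_congr rfl fun i _ => ?_
    rw [← Finset.mul_prod_erase Finset.univ _ (Finset.mem_univ i),
      ← Finset.mul_prod_erase Finset.univ (fun j => F i j (x j)) (Finset.mem_univ i), ← mul_assoc]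
    congr 1
    · simp only [hF, if_true]
      by_cases hx : x i ∈ Iᶜ
      · rw [indicator_of_mem hx, indicator_of_mem hx, mul_one]
      · rw [indicator_of_notMem hx, indicator_of_notMem hx, mul_zero]
    · refine Finset.prod_congr rfl fun j hj => ?_
      simp only [hF, if_neg (Finset.ne_of_mem_erase hj)]
  have hA : ∫ y, (Iᶜ).indicator h y ∂(gaussianReal 0 1) = - ∫ y in I, h y ∂(gaussianReal 0 1) := by
    rw [integral_indicator hIc]
    have := integral_add_compl hI hh
    linarith
  have hB : ∫ y, (Iᶜ).indicator (fun _ => (1 : ℝ)) y ∂(gaussianReal 0 1) =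
      1 - (gaussianReal 0 1).real I := by
    rw [integral_indicator hIc, setIntegral_const, smul_eq_mul, mul_one, probReal_compl_eq_one_sub hI]
  calc ∫ x, (∑ i : Fin n, h (x i)) * ∏ j : Fin n, (Iᶜ).indicator (fun _ => (1 : ℝ)) (x j)
        ∂(Measure.pi (fun _ : Fin n => gaussianReal 0 1))
      = ∫ x, ∑ i : Fin n, ∏ j : Fin n, F i j (x j)
          ∂(Measure.pi (fun _ : Fin n => gaussianReal 0 1)) := by
        refine integral_congr_ae (Filter.Eventually.of_forall fun x => ?_)
        exact hpt x
    _ = ∑ i : Fin n, ∫ x, ∏ j : Fin n, F i j (x j)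
          ∂(Measure.pi (fun _ : Fin n => gaussianReal 0 1)) := by
        refine integral_finsetSum _ fun i _ => ?_
        exact Integrable.fintype_prod (f := F i) (μ := fun _ : Fin n => gaussianReal 0 1) (hFint i)
    _ = ∑ i : Fin n, ∏ j : Fin n, (if j = i then - ∫ y in I, h y ∂(gaussianReal 0 1) else
          (1 - (gaussianReal 0 1).real I)) := by
        refine Finset.sum_congr rfl fun i _ => ?_
        rw [integral_fintype_prod_eq_prod (f := F i) (μ := fun _ : Fin n => gaussianReal 0 1)]
        refine Finset.prod_congr rfl fun j _ => ?_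
        simp only [hF]
        by_cases hij : j = i
        · simp only [hij, if_true]
          exact hA
        · simp only [hij, if_false]
          exact hB
    _ = _ := by
        simp only [prod_ite_one]
        rw [Finset.sum_const, Finset.card_univ, Fintype.card_fin, nsmul_eq_mul]
        ring

/-- H5 (second moment of centred sums). -/
theorem centred_sum_sq (n : ℕ) (h : ℝ → ℝ) (hh : MemLp h 2 (gaussianReal 0 1)) :
    ∫ x, (∑ i : Fin n, h (x i) - n * ∫ y, h y ∂(gaussianReal 0 1)) ^ 2
        ∂(Measure.pi (fun _ : Fin n => gaussianReal 0 1))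
      ≤ n * ∫ y, (h y) ^ 2 ∂(gaussianReal 0 1) := by
  have h1 := variance_sum_pi (μ := fun _ : Fin n => gaussianReal 0 1) (X := fun _ => h)
    (fun _ => hh)
  have hi : Integrable h (gaussianReal 0 1) := hh.integrable (by norm_num)
  have hmem : ∀ i : Fin n, MemLp (fun x : Fin n → ℝ => h (x i)) 2
      (Measure.pi (fun _ : Fin n => gaussianReal 0 1)) := fun i =>
    hh.comp_measurePreserving (measurePreserving_eval (fun _ : Fin n => gaussianReal 0 1) i)
  have hmean : ∫ x, (∑ i : Fin n, fun x : Fin n → ℝ => h (x i)) x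
      ∂(Measure.pi (fun _ : Fin n => gaussianReal 0 1)) = n * ∫ y, h y ∂(gaussianReal 0 1) := by
    simp only [Finset.sum_apply]
    rw [integral_finsetSum _ fun i _ => (hmem i).integrable (by norm_num)]
    have : ∀ i : Fin n, ∫ x : Fin n → ℝ, h (x i)
        ∂(Measure.pi (fun _ : Fin n => gaussianReal 0 1)) = ∫ y, h y ∂(gaussianReal 0 1) := by
      intro i
      exact integral_comp_eval (μ := fun _ : Fin n => gaussianReal 0 1) hi.aestronglyMeasurable
    simp only [this, Finset.sum_const, Finset.card_univ, Fintype.card_fin, nsmul_eq_mul]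
  have hm : AEMeasurable (∑ i : Fin n, fun x : Fin n → ℝ => h (x i))
      (Measure.pi (fun _ : Fin n => gaussianReal 0 1)) := by
    have := memLp_finsetSum' Finset.univ (fun i _ => hmem i)
    exact this.aestronglyMeasurable.aemeasurable
  rw [variance_eq_integral hm, hmean] at h1
  have h2 : ∫ x, (∑ i : Fin n, h (x i) - n * ∫ y, h y ∂(gaussianReal 0 1)) ^ 2
        ∂(Measure.pi (fun _ : Fin n => gaussianReal 0 1)) = n * Var[h; gaussianReal 0 1] := by
    rw [Finset.sum_const, Finset.card_univ, Fintype.card_fin, nsmul_eq_mul] at h1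
    rw [← h1]
    simp only [Finset.sum_apply]
  rw [h2]
  gcongr
  exact variance_le_expectation_sq hh.aestronglyMeasurable

namespace PM

/-- Power mean inequality with at most `N` nonzero terms. -/
lemma abs_sum_rpow_le {ι : Type*} (s : Finset ι) (a : ι → ℝ) :
    |∑ i ∈ s, a i| ^ (4 / 3 : ℝ) ≤ s.card * ∑ i ∈ s, |a i| ^ (4 / 3 : ℝ) := by
  rcases s.eq_empty_or_nonempty with rfl | hs
  · simp
  have hc : (0 : ℝ) < s.card := by exact_mod_cast hs.card_pos
  have hc1 : (1 : ℝ) ≤ s.card := by exact_mod_cast hs.card_pos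
  have h1 : |∑ i ∈ s, a i| ≤ ∑ i ∈ s, |a i| := Finset.abs_sum_le_sum_abs _ _
  have h2 : |∑ i ∈ s, a i| ^ (4 / 3 : ℝ) ≤ (∑ i ∈ s, |a i|) ^ (4 / 3 : ℝ) :=
    Real.rpow_le_rpow (abs_nonneg _) h1 (by norm_num)
  have h4 : (∑ i ∈ s, |a i|) ^ (4 / 3 : ℝ) ≤
      (s.card : ℝ) ^ ((4 / 3 : ℝ) - 1) * ∑ i ∈ s, |a i| ^ (4 / 3 : ℝ) :=
    Real.rpow_sum_le_const_mul_sum_rpow_of_nonneg s (by norm_num) (fun i _ => abs_nonneg _)
  have h5 : (s.card : ℝ) ^ ((4 / 3 : ℝ) - 1) ≤ s.card := by
    calc (s.card : ℝ) ^ ((4 / 3 : ℝ) - 1) ≤ (s.card : ℝ) ^ (1 : ℝ) :=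
          Real.rpow_le_rpow_of_exponent_le hc1 (by norm_num)
      _ = _ := Real.rpow_one _
  have h6 : 0 ≤ ∑ i ∈ s, |a i| ^ (4 / 3 : ℝ) :=
    Finset.sum_nonneg fun i _ => Real.rpow_nonneg (abs_nonneg _) _
  exact (h2.trans h4).trans (by gcongr)

lemma pair_indep {n : ℕ} {i j : Fin n} (hij : i ≠ j) (F G : ℝ → ℝ) (hF : Measurable F)
    (hG : Measurable G) :
    ∫ x : Fin n → ℝ, F (x i) * G (x j) ∂(gn n) = (∫ y, F y ∂ga) * ∫ y, G y ∂ga := by
  have h := iIndepFun_pi (μ := fun _ : Fin n => ga) (X := fun _ => (id : ℝ → ℝ))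
    (fun _ => aemeasurable_id)
  have h2 : IndepFun (fun x : Fin n → ℝ => x i) (fun x : Fin n → ℝ => x j) (gn n) :=
    h.indepFun hij
  have h3 := (h2.comp hF hG).integral_fun_mul_eq_mul_integral
    (hF.comp (measurable_pi_apply i)).aestronglyMeasurable
    (hG.comp (measurable_pi_apply j)).aestronglyMeasurable
  simp only [Function.comp_apply] at h3
  rw [h3]
  congr 1
  · exact integral_comp_eval (μ := fun _ : Fin n => ga) hF.aestronglyMeasurable
  · exact integral_comp_eval (μ := fun _ : Fin n => ga) hG.aestronglyMeasurable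

lemma pair_integrable {n : ℕ} {i j : Fin n} (F G : ℝ → ℝ) (hF : Integrable F ga)
    (hG : Measurable G) (hG1 : ∀ y, |G y| ≤ 1) :
    Integrable (fun x : Fin n → ℝ => F (x i) * G (x j)) (gn n) := by
  have h1 : Integrable (fun x : Fin n → ℝ => F (x i)) (gn n) :=
    integrable_comp_eval (μ := fun _ : Fin n => ga) hF
  refine h1.mul_bdd (c := 1) ((hG.comp (measurable_pi_apply j)).aestronglyMeasurable) ?_
  exact Filter.Eventually.of_forall fun x => by
    rw [Real.norm_eq_abs]; exact hG1 _

end PM

/-- H3 (upper bound of the `L_{4/3}` norm of a sum of rare functions). -/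
theorem rare_sum_bound (n : ℕ) (R : Set ℝ) (hR : MeasurableSet R) (r : ℝ → ℝ) (hr : Measurable r)
    (hrR : ∀ y, y ∉ R → r y = 0)
    (hint : Integrable (fun y => |r y| ^ (4 / 3 : ℝ)) (gaussianReal 0 1)) :
    ∫ x, |∑ i : Fin n, r (x i)| ^ (4 / 3 : ℝ) ∂(Measure.pi (fun _ : Fin n => gaussianReal 0 1))
      ≤ (1 + n * (gaussianReal 0 1).real R) * (n * ∫ y, |r y| ^ (4 / 3 : ℝ) ∂(gaussianReal 0 1)) := by
  classical
  set F : ℝ → ℝ := fun y => |r y| ^ (4 / 3 : ℝ) with hFdef
  set G : ℝ → ℝ := R.indicator (fun _ => (1 : ℝ)) with hGdef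
  have hFm : Measurable F := by
    simp only [hFdef]
    exact (hr.abs).pow_const _
  have hGm : Measurable G := measurable_const.indicator hR
  have hG1 : ∀ y, |G y| ≤ 1 := by
    intro y
    simp only [hGdef]
    by_cases hy : y ∈ R
    · rw [indicator_of_mem hy]; simp
    · rw [indicator_of_notMem hy]; simp
  have hG0 : ∀ y, 0 ≤ G y := fun y => by
    simp only [hGdef]
    exact indicator_nonneg (fun _ _ => zero_le_one) y
  have hF0 : ∀ y, 0 ≤ F y := fun y => Real.rpow_nonneg (abs_nonneg _) _
  have hint' : Integrable F ga := hint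
  -- pointwise bound
  have hpt : ∀ x : Fin n → ℝ, |∑ i : Fin n, r (x i)| ^ (4 / 3 : ℝ) ≤
      ∑ i : Fin n, ∑ j : Fin n, F (x i) * G (x j) := by
    intro x
    set S : Finset (Fin n) := Finset.univ.filter (fun i => x i ∈ R) with hS
    have h1 : ∑ i : Fin n, r (x i) = ∑ i ∈ S, r (x i) := by
      rw [hS, Finset.sum_filter]
      refine Finset.sum_congr rfl fun i _ => ?_
      split_ifs with h
      · rfl
      · exact hrR _ h
    have h2 : (S.card : ℝ) = ∑ j : Fin n, G (x j) := by
      rw [hS, Finset.card_filter]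
      push_cast
      refine Finset.sum_congr rfl fun j _ => ?_
      simp only [hGdef, indicator_apply]
    have h3 : ∑ i ∈ S, |r (x i)| ^ (4 / 3 : ℝ) ≤ ∑ i : Fin n, F (x i) :=
      Finset.sum_le_sum_of_subset_of_nonneg (Finset.subset_univ _) fun i _ _ => hF0 _
    rw [h1]
    refine (PM.abs_sum_rpow_le S _).trans ?_
    rw [h2]
    calc (∑ j : Fin n, G (x j)) * ∑ i ∈ S, |r (x i)| ^ (4 / 3 : ℝ)
        ≤ (∑ j : Fin n, G (x j)) * ∑ i : Fin n, F (x i) := by
          gcongr
          exact Finset.sum_nonneg fun j _ => hG0 _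
      _ = _ := by
          rw [mul_comm, Finset.sum_mul_sum]
  have hpi : ∀ i j : Fin n, Integrable (fun x : Fin n → ℝ => F (x i) * G (x j)) (gn n) :=
    fun i j => PM.pair_integrable F G hint' hGm hG1
  have hval : ∀ i j : Fin n, ∫ x : Fin n → ℝ, F (x i) * G (x j) ∂(gn n) ≤
      if j = i then ∫ y, F y ∂ga else (∫ y, F y ∂ga) * ga.real R := by
    intro i j
    by_cases hij : j = i
    · subst hij
      rw [if_pos rfl]
      calc ∫ x : Fin n → ℝ, F (x j) * G (x j) ∂(gn n) ≤ ∫ x : Fin n → ℝ, F (x j) ∂(gn n) := by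
            refine integral_mono (hpi j j)
              (integrable_comp_eval (μ := fun _ : Fin n => ga) hint') fun x => ?_
            have h1 := hG1 (x j)
            have h2 := hF0 (x j)
            rw [abs_le] at h1
            show F (x j) * G (x j) ≤ F (x j)
            nlinarith [h1.2]
        _ = ∫ y, F y ∂ga :=
            integral_comp_eval (μ := fun _ : Fin n => ga) hint'.aestronglyMeasurable
    · rw [if_neg hij, PM.pair_indep (Ne.symm hij) F G hFm hGm]
      refine le_of_eq ?_
      congr 1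
      simp only [hGdef]
      rw [integral_indicator hR, setIntegral_const, smul_eq_mul, mul_one]
  have hIF : 0 ≤ ∫ y, F y ∂ga := integral_nonneg hF0
  have hR0 : 0 ≤ ga.real R := measureReal_nonneg
  calc ∫ x, |∑ i : Fin n, r (x i)| ^ (4 / 3 : ℝ) ∂(gn n)
      ≤ ∫ x, ∑ i : Fin n, ∑ j : Fin n, F (x i) * G (x j) ∂(gn n) := by
        refine integral_mono_of_nonneg (Filter.Eventually.of_forall fun x =>
          Real.rpow_nonneg (abs_nonneg _) _) ?_ (Filter.Eventually.of_forall hpt)
        exact integrable_finsetSum _ fun i _ => integrable_finsetSum _ fun j _ => hpi i j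
    _ = ∑ i : Fin n, ∑ j : Fin n, ∫ x : Fin n → ℝ, F (x i) * G (x j) ∂(gn n) := by
        rw [integral_finsetSum _ fun i _ => integrable_finsetSum _ fun j _ => hpi i j]
        refine Finset.sum_congr rfl fun i _ => ?_
        rw [integral_finsetSum _ fun j _ => hpi i j]
    _ ≤ ∑ i : Fin n, ∑ j : Fin n,
          (if j = i then ∫ y, F y ∂ga else (∫ y, F y ∂ga) * ga.real R) :=
        Finset.sum_le_sum fun i _ => Finset.sum_le_sum fun j _ => hval i j
    _ ≤ ∑ i : Fin n, (∫ y, F y ∂ga + n * ((∫ y, F y ∂ga) * ga.real R)) := by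
        refine Finset.sum_le_sum fun i _ => ?_
        calc ∑ j : Fin n, (if j = i then ∫ y, F y ∂ga else (∫ y, F y ∂ga) * ga.real R)
            ≤ ∑ j : Fin n, ((if j = i then ∫ y, F y ∂ga else 0) +
                (∫ y, F y ∂ga) * ga.real R) := by
              refine Finset.sum_le_sum fun j _ => ?_
              have : 0 ≤ (∫ y, F y ∂ga) * ga.real R := by positivity
              split_ifs <;> linarith
          _ = _ := by
              rw [Finset.sum_add_distrib, Finset.sum_ite_eq' Finset.univ i,
                if_pos (Finset.mem_univ i), Finset.sum_const, Finset.card_univ, Fintype.card_fin,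
                nsmul_eq_mul]
    _ = (1 + n * ga.real R) * (n * ∫ y, F y ∂ga) := by
        rw [Finset.sum_const, Finset.card_univ, Fintype.card_fin, nsmul_eq_mul]
        ring

namespace PM

lemma integrable_pow (k : ℕ) : Integrable (fun y : ℝ => y ^ k) ga := by
  rcases Nat.eq_zero_or_pos k with rfl | hk
  · simp
  have h := memLp_id_gaussianReal (μ := 0) (v := 1) (k : NNReal)
  have h2 : Integrable (fun y : ℝ => ‖y‖ ^ k) ga := by
    have := h.integrable_norm_pow (p := k) (by omega)
    simpa using this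
  refine h2.mono' ((measurable_id.pow_const k).aestronglyMeasurable) ?_
  exact Filter.Eventually.of_forall fun y => (norm_pow y k).le

lemma integrable_poly (g : ℝ[X]) : Integrable (fun y => g.eval y) ga := by
  have : (fun y => g.eval y) = fun y => ∑ k ∈ g.support, g.coeff k * y ^ k := by
    funext y
    rw [Polynomial.eval_eq_sum, Polynomial.sum]
  rw [this]
  exact integrable_finsetSum _ fun k _ => (integrable_pow k).const_mul _

lemma eval_aeval {n : ℕ} (g : ℝ[X]) (v : Fin n → ℝ) (i : Fin n) :
    MvPolynomial.eval v (Polynomial.aeval (MvPolynomial.X i) g) = g.eval (v i) := by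
  have h := Polynomial.hom_eval₂ g (algebraMap ℝ (MvPolynomial (Fin n) ℝ)) (MvPolynomial.eval v)
    (MvPolynomial.X i)
  rw [Polynomial.aeval_def, h, MvPolynomial.eval_X]
  have : (MvPolynomial.eval v).comp (algebraMap ℝ (MvPolynomial (Fin n) ℝ)) = RingHom.id ℝ := by
    ext x
    simp [MvPolynomial.algebraMap_eq]
  rw [this]
  rfl

lemma gaussian_integral (f : ℝ → ℝ) :
    ∫ y, f y ∂ga = (Real.sqrt (2 * Real.pi))⁻¹ * ∫ y, f y * Real.exp (-(y ^ 2) / 2) := by
  rw [integral_gaussianReal_eq_integral_smul (by norm_num)]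
  rw [← integral_const_mul]
  refine integral_congr_ae (Filter.Eventually.of_forall fun y => ?_)
  simp only [gaussianPDFReal, smul_eq_mul, NNReal.coe_one, mul_one, sub_zero]
  ring

end PM

/-- H6 (additive polynomials are in the tail space). -/
theorem additive_tail (n D : ℕ) (g : ℝ[X])
    (hg : ∀ φ : ℝ[X], φ.natDegree < D → ∫ y, g.eval y * φ.eval y * Real.exp (-(y ^ 2) / 2) = 0)
    (G : MvPolynomial (Fin n) ℝ) (hG : G.totalDegree < D) :
    ∫ x, MvPolynomial.eval x (∑ i : Fin n, Polynomial.aeval (MvPolynomial.X i) g) *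
        MvPolynomial.eval x G ∂(Measure.pi (fun _ : Fin n => gaussianReal 0 1)) = 0 := by
  classical
  -- one term
  set F : Fin n → (Fin n →₀ ℕ) → Fin n → ℝ → ℝ := fun i s j y =>
    if j = i then g.eval y * y ^ (s j) else y ^ (s j) with hF
  have hFint : ∀ i s j, Integrable (F i s j) (gaussianReal 0 1) := by
    intro i s j
    simp only [hF]
    by_cases hij : j = i
    · simp only [hij, if_true]
      have := PM.integrable_poly (g * Polynomial.X ^ (s i))
      simpa only [Polynomial.eval_mul, Polynomial.eval_pow, Polynomial.eval_X] using this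
    · simp only [hij, if_false]
      exact PM.integrable_pow _
  have hpt : ∀ x : Fin n → ℝ,
      MvPolynomial.eval x (∑ i : Fin n, Polynomial.aeval (MvPolynomial.X i) g) *
        MvPolynomial.eval x G =
      ∑ i : Fin n, ∑ s ∈ G.support, G.coeff s * ∏ j : Fin n, F i s j (x j) := by
    intro x
    rw [map_sum, Finset.sum_mul]
    refine Finset.sum_congr rfl fun i _ => ?_
    rw [PM.eval_aeval, MvPolynomial.eval_eq', Finset.mul_sum]
    refine Finset.sum_congr rfl fun s _ => ?_
    have : ∏ j : Fin n, F i s j (x j) = g.eval (x i) * ∏ j : Fin n, x j ^ s j := by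
      rw [← Finset.mul_prod_erase Finset.univ _ (Finset.mem_univ i),
        ← Finset.mul_prod_erase Finset.univ (fun j => x j ^ s j) (Finset.mem_univ i), ← mul_assoc]
      congr 1
      · simp only [hF, if_true]
      · refine Finset.prod_congr rfl fun j hj => ?_
        simp only [hF, if_neg (Finset.ne_of_mem_erase hj)]
    rw [this]
    ring
  have hzero : ∀ (i : Fin n) (s : Fin n →₀ ℕ), s ∈ G.support →
      ∫ x, ∏ j : Fin n, F i s j (x j) ∂(Measure.pi (fun _ : Fin n => gaussianReal 0 1)) = 0 := by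
    intro i s hs
    rw [integral_fintype_prod_eq_prod (f := F i s) (μ := fun _ : Fin n => gaussianReal 0 1)]
    refine Finset.prod_eq_zero (Finset.mem_univ i) ?_
    simp only [hF, if_true]
    rw [PM.gaussian_integral]
    have hdeg : s i < D := by
      have h1 : (s.sum fun _ e => e) ≤ G.totalDegree := MvPolynomial.le_totalDegree hs
      have h2 : s i ≤ s.sum fun _ e => e := by
        rw [Finsupp.sum_fintype _ _ (fun _ => rfl)]
        exact Finset.single_le_sum (f := fun j => s j) (fun _ _ => Nat.zero_le _)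
          (Finset.mem_univ i)
      omega
    have h3 := hg (Polynomial.X ^ (s i)) (by rw [Polynomial.natDegree_X_pow]; exact hdeg)
    simp only [Polynomial.eval_pow, Polynomial.eval_X] at h3
    rw [h3, mul_zero]
  have hintp : ∀ i s, Integrable (fun x : Fin n → ℝ => G.coeff s * ∏ j : Fin n, F i s j (x j))
      (Measure.pi (fun _ : Fin n => gaussianReal 0 1)) := fun i s =>
    (Integrable.fintype_prod (f := F i s) (μ := fun _ : Fin n => gaussianReal 0 1)
      (hFint i s)).const_mul _
  calc ∫ x, MvPolynomial.eval x (∑ i : Fin n, Polynomial.aeval (MvPolynomial.X i) g) *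
        MvPolynomial.eval x G ∂(Measure.pi (fun _ : Fin n => gaussianReal 0 1))
      = ∫ x, ∑ i : Fin n, ∑ s ∈ G.support, G.coeff s * ∏ j : Fin n, F i s j (x j)
          ∂(Measure.pi (fun _ : Fin n => gaussianReal 0 1)) := by
        refine integral_congr_ae (Filter.Eventually.of_forall fun x => ?_)
        exact hpt x
    _ = ∑ i : Fin n, ∑ s ∈ G.support, ∫ x, G.coeff s * ∏ j : Fin n, F i s j (x j)
          ∂(Measure.pi (fun _ : Fin n => gaussianReal 0 1)) := by
        rw [integral_finsetSum _ fun i _ => integrable_finsetSum _ fun s _ => hintp i s]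
        refine Finset.sum_congr rfl fun i _ => ?_
        rw [integral_finsetSum _ fun s _ => hintp i s]
    _ = 0 := by
        refine Finset.sum_eq_zero fun i _ => Finset.sum_eq_zero fun s hs => ?_
        rw [integral_const_mul, hzero i s hs, mul_zero]

/-- H7 (the Mehler semigroup in `n` variables on additive polynomials). -/
theorem additive_mehler (n : ℕ) (g : ℝ[X]) (t : ℝ) (x : Fin n → ℝ) :
    ∫ y, MvPolynomial.eval
        (fun i => Real.exp (-t) * x i + Real.sqrt (1 - Real.exp (-2 * t)) * y i)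
        (∑ i : Fin n, Polynomial.aeval (MvPolynomial.X i) g)
        ∂(Measure.pi (fun _ : Fin n => gaussianReal 0 1))
      = ∑ i : Fin n, Pt t (fun u => g.eval u) (x i) := by
  have h1 : ∀ (i : Fin n), Integrable (fun v => g.eval
      (Real.exp (-t) * x i + Real.sqrt (1 - Real.exp (-2 * t)) * v)) (gaussianReal 0 1) := by
    intro i
    have := PM.integrable_poly (g.comp (Polynomial.C (Real.exp (-t) * x i) +
      Polynomial.C (Real.sqrt (1 - Real.exp (-2 * t))) * Polynomial.X))
    simpa only [Polynomial.eval_comp, Polynomial.eval_add, Polynomial.eval_C, Polynomial.eval_mul,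
      Polynomial.eval_X] using this
  have h2 : ∀ y : Fin n → ℝ, MvPolynomial.eval
        (fun i => Real.exp (-t) * x i + Real.sqrt (1 - Real.exp (-2 * t)) * y i)
        (∑ i : Fin n, Polynomial.aeval (MvPolynomial.X i) g) =
      ∑ i : Fin n, (fun v => g.eval
        (Real.exp (-t) * x i + Real.sqrt (1 - Real.exp (-2 * t)) * v)) (y i) := by
    intro y
    rw [map_sum]
    exact Finset.sum_congr rfl fun i _ => PM.eval_aeval _ _ _
  simp only [h2]
  rw [integral_finsetSum _ fun i _ =>
    integrable_comp_eval (μ := fun _ : Fin n => gaussianReal 0 1) (h1 i)]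
  refine Finset.sum_congr rfl fun i _ => ?_
  rw [integral_comp_eval (μ := fun _ : Fin n => gaussianReal 0 1) (h1 i).aestronglyMeasurable]
  rfl

end Pool.Agent.Lib28.Heat
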